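import Pool.Agent.Helper52.SM.Goals
import Pool.Agent.Helper78.DT.Av

/-!
# Project SM: the probability inequality of LEN
-/

namespace Pool.Agent.Helper91.SM

open Pool.Agent.Helper81.CC Pool.Agent.Helper78.DT Pool.Agent.Helper51.ZP Pool.Agent.Helper65.CS
open Pool.Agent.Helper78 Pool.Agent.Helper52.SM
open scoped Classical

/-- The stages in the memory before the stage `i` are smaller than `i`. -/
theorem mem_lt {act : PM.View → ℕ} {c : ℕ} {x : List Bool} {b : ℕ → Bool} :
    ∀ {i : ℕ} {M : PM.Mem}, mem act c x b i = some M → ∀ e ∈ M, e.1 < i := by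
  intro i
  induction i with
  | zero =>
    intro M h e he
    simp only [mem, Option.some.injEq] at h
    subst h
    simp at he
  | succ i ih =>
    intro M h e he
    rw [mem] at h
    cases hm : mem act c x b i with
    | none => rw [hm] at h; simp at h
    | some M0 =>
      rw [hm] at h
      simp only at h
      split_ifs at h with h1 h2
      · simp only [Option.some.injEq] at h
        subst h
        rcases List.mem_append.1 he with he | he
        · exact (ih hm e he).trans (Nat.lt_succ_self i)
        · rw [List.mem_singleton.1 he]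
          exact Nat.lt_succ_self i
      · simp only [Option.some.injEq] at h
        subst h
        exact (ih hm e he).trans (Nat.lt_succ_self i)

/-- If the memory before the stage `i + 1` is `M` or `M` with a list stored by the stage `i`, the
memory before the stage `i` is `M`. -/
theorem mem_back {act : PM.View → ℕ} {c : ℕ} {x : List Bool} {b : ℕ → Bool} {i : ℕ} {M : PM.Mem}
    (hM : ∀ e ∈ M, e.1 < i) (h : mem act c x b (i + 1) = some M ∨
      ∃ a, mem act c x b (i + 1) = some (M ++ [(i, a)])) : mem act c x b i = some M := by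
  cases hm : mem act c x b i with
  | none =>
    rcases h with h | ⟨a, h⟩ <;> (rw [mem, hm] at h; simp at h)
  | some M0 =>
    rcases h with h | ⟨a, h⟩
    · rw [mem, hm] at h
      simp only at h
      split_ifs at h with h1 h2
      · simp only [Option.some.injEq] at h
        have := hM (i, PM.bits act x b i M0 (PM.bd c x)) (by rw [← h]; simp)
        exact absurd this (lt_irrefl i)
      · exact h
    · rw [mem, hm] at h
      simp only at h
      split_ifs at h with h1 h2
      · simp only [Option.some.injEq] at h
        rw [(List.append_inj' h rfl).1]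
      · simp only [Option.some.injEq] at h
        have := mem_lt hm (i, a) (by rw [h]; simp)
        exact absurd this (lt_irrefl i)

/-- Disjoint events contained in `F`. -/
theorem pr_disj {Ω α : Type*} [Fintype Ω] (E : α → Ω → Prop) (E0 F : Ω → Prop) :
    ∀ l : List α, l.Nodup → (∀ w, ∀ a ∈ l, ∀ a' ∈ l, E a w → E a' w → a = a') →
    (∀ w, ∀ a ∈ l, E a w → ¬ E0 w) → (∀ w, ∀ a ∈ l, E a w → F w) → (∀ w, E0 w → F w) →
    (l.map fun a => pr (E a)).sum + pr E0 ≤ pr F := by
  have key : ∀ l : List α, l.Nodup → (∀ w, ∀ a ∈ l, ∀ a' ∈ l, E a w → E a' w → a = a') →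
      (l.map fun a => pr (E a)).sum = pr fun w => ∃ a ∈ l, E a w := by
    intro l
    induction l with
    | nil =>
      intro _ _
      simp [pr, av]
    | cons a l ih =>
      intro hn hd
      rw [List.map_cons, List.sum_cons, ih (List.nodup_cons.1 hn).2
        (fun w a1 h1 a2 h2 => hd w a1 (List.mem_cons_of_mem _ h1) a2 (List.mem_cons_of_mem _ h2))]
      unfold pr
      rw [← av_add]
      refine av_congr fun w => ?_
      by_cases h1 : E a w
      · have h2 : ¬ ∃ a' ∈ l, E a' w := by
          rintro ⟨a', ha', h⟩
          have := hd w a (by simp) a' (List.mem_cons_of_mem _ ha') h1 h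
          subst this
          exact (List.nodup_cons.1 hn).1 ha'
        rw [if_pos h1, if_neg h2, if_pos ⟨a, by simp, h1⟩, add_zero]
      · rw [if_neg h1, zero_add]
        by_cases h2 : ∃ a' ∈ l, E a' w
        · obtain ⟨a', ha', h⟩ := h2
          rw [if_pos ⟨a', ha', h⟩, if_pos ⟨a', List.mem_cons_of_mem _ ha', h⟩]
        · rw [if_neg h2, if_neg]
          rintro ⟨a', ha', h⟩
          rcases List.mem_cons.1 ha' with rfl | ha'
          · exact h1 h
          · exact h2 ⟨a', ha', h⟩
  intro l hn hd h0 hF hF0
  rw [key l hn hd]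
  unfold pr
  rw [← av_add]
  refine av_mono fun w => ?_
  by_cases h1 : ∃ a ∈ l, E a w
  · obtain ⟨a, ha, h⟩ := h1
    rw [if_pos ⟨a, ha, h⟩, if_neg (h0 w a ha h), if_pos (hF w a ha h), add_zero]
  · rw [if_neg h1, zero_add]
    by_cases h2 : E0 w
    · rw [if_pos h2, if_pos (hF0 w h2)]
    · rw [if_neg h2]
      split_ifs <;> norm_num

/-- **LENA.** The probabilities of the memories before the next stage. -/
theorem lenA (act : PM.View → ℕ) (c : ℕ) (x : List Bool) (m : ℕ) (s : List (ℕ × Bool)) (i : ℕ)
    (M : PM.Mem) (hM : ∀ e ∈ M, e.1 < i) (L : List (List Bool)) (hL : L.Nodup) :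
    (L.map fun a => qm act c x m s (i + 1) (M ++ [(i, a)])).sum + qm act c x m s (i + 1) M ≤
      qm act c x m s i M := by
  unfold qm
  refine pr_disj (fun (a : List Bool) (y : Fin m → Bool) =>
    mem act c x (ov s (PM.coins y)) (i + 1) = some (M ++ [(i, a)])) _ _ L hL ?_ ?_ ?_ ?_
  · intro w a _ a' _ h h'
    rw [h] at h'
    simpa using h'
  · intro w a _ h h'
    rw [h] at h'
    simp at h'
  · intro w a _ h
    exact mem_back hM (Or.inr ⟨a, h⟩)
  · intro w h
    exact mem_back hM (Or.inl h)

/-- A sublist-friendly form: the sum over the heavy leaves. -/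
theorem lenA_filter (act : PM.View → ℕ) (c : ℕ) (x : List Bool) (m : ℕ) (s : List (ℕ × Bool))
    (i : ℕ) (M : PM.Mem) (hM : ∀ e ∈ M, e.1 < i) (L : List (List Bool)) (hL : L.Nodup)
    (p : List Bool → Bool) :
    ((L.filter p).map fun a => qm act c x m s (i + 1) (M ++ [(i, a)])).sum +
      qm act c x m s (i + 1) M ≤ qm act c x m s i M :=
  lenA act c x m s i M hM _ (hL.filter p)

end Pool.Agent.Helper91.SM
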